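import Pool.Agent.helper72.UP.Spec

set_option autoImplicit false

namespace Pool.Agent.helper72.UP

open Finset

private lemma FLP_sum (n : ℕ) (x : Fin n → ℝ) (s : Finset (Fin n)) :
    ∑ i ∈ symmDiff s (univ.filter (fun i => x i < 0)), |x i| =
      ∑ i ∈ s, x i + ∑ i ∈ univ.filter (fun i => x i < 0), |x i| := by
  have h : ∀ (A : Finset (Fin n)) (f : Fin n → ℝ), ∑ i ∈ A, f i = ∑ i, if i ∈ A then f i else 0 := by
    intro A f
    rw [Finset.sum_ite_mem, Finset.univ_inter]
  rw [h, h s, h (univ.filter (fun i => x i < 0)), ← Finset.sum_add_distrib]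
  refine Finset.sum_congr rfl fun i _ => ?_
  simp only [Finset.mem_symmDiff, Finset.mem_filter, Finset.mem_univ, true_and]
  by_cases h1 : x i < 0
  · by_cases h2 : i ∈ s
    · simp [h1, h2, abs_of_neg h1]
    · simp [h1, h2]
  · by_cases h2 : i ∈ s
    · simp [h1, h2, abs_of_nonneg (not_lt.1 h1)]
    · simp [h1, h2]

theorem FLP : FLP_stmt := by
  intro n x
  refine ⟨∑ i ∈ univ.filter (fun i => x i < 0), |x i|, ?_⟩
  unfold cnt
  refine Finset.card_nbij' (fun s => symmDiff s (univ.filter (fun i => x i < 0)))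
    (fun s => symmDiff s (univ.filter (fun i => x i < 0))) ?_ ?_ ?_ ?_
  · intro s hs
    have hs' : ∑ i ∈ s, x i = 0 := by simpa using hs
    simp only [Finset.coe_filter, Finset.mem_univ, true_and, Set.mem_setOf_eq]
    rw [FLP_sum, hs', zero_add]
  · intro s hs
    have hs' : ∑ i ∈ s, |x i| = ∑ i ∈ univ.filter (fun i => x i < 0), |x i| := by simpa using hs
    simp only [Finset.coe_filter, Finset.mem_univ, true_and, Set.mem_setOf_eq]
    have h1 := FLP_sum n x (symmDiff s (univ.filter (fun i => x i < 0)))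
    rw [symmDiff_symmDiff_cancel_right, hs'] at h1
    linarith
  · intro s _
    exact symmDiff_symmDiff_cancel_right _ _
  · intro s _
    exact symmDiff_symmDiff_cancel_right _ _

end Pool.Agent.helper72.UP
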